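import Pool.Agent.helper98.ILF.ExpFinal

/-!
# Invariant line fields in the exponential family `exp z + c`

`HasInvariantLineField`, `HasAttractingCycle`, `juliaSet` and the notions they use are defined in
`Pool/Agent/helper98/ILF/Defs.lean`; `volume` is the area measure of `ℂ`.
-/

set_option autoImplicit false

namespace Pool.Agent.helper56.Reserve.ExponentialArea

open Pool.Agent.helper98.ILF MeasureTheory Metric

/-- Let `E` be the set of all `c` such that `exp z + c` has an invariant line field on its Julia set
or has no attracting cycle. There is a constant `C` such that `E` lies in `Re c ≥ -1`, the part of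
`E` in every half strip `Re c ≥ x`, `y ≤ Im c ≤ y + 2 π` with `x ≥ 1` has area at most
`C x exp (-x)`, and the part of `E` in every disc `|c| ≤ R` with `R ≥ 1` has area at most
`C R`. -/
theorem result : ∃ C : ℝ, ∃ E : Set ℂ,
    E = {c : ℂ | HasInvariantLineField (fun z : ℂ => Complex.exp z + c) ∨
      ¬ HasAttractingCycle (fun z : ℂ => Complex.exp z + c)} ∧
    (∀ c ∈ E, -1 ≤ c.re) ∧
    (∀ x y : ℝ, 1 ≤ x →
      volume (E ∩ {c : ℂ | x ≤ c.re ∧ (y ≤ c.im ∧ c.im ≤ y + 2 * Real.pi)}) ≤
        ENNReal.ofReal (C * (x * Real.exp (-x)))) ∧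
    (∀ R : ℝ, 1 ≤ R → volume (E ∩ closedBall 0 R) ≤ ENNReal.ofReal (C * R)) :=
  ⟨10 ^ 6, expExc, rfl, fun _ hc => neg_one_le_re (expExc_subset hc),
    fun _ y hx => (measure_mono (Set.inter_subset_inter_left _ expExc_subset)).trans
      (volume_expBad_strip hx y),
    fun _ hR => (measure_mono (Set.inter_subset_inter_left _ expExc_subset)).trans
      (volume_expBad_disc hR)⟩

end Pool.Agent.helper56.Reserve.ExponentialArea
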