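import Pool.Agent.helper56.EZ.Final

/-!
# The exponential family has no invariant line fields

`HasInvariantLineField`, `juliaSet` and the notions they use are defined in
`Pool/Agent/helper98/ILF/Defs.lean`.
-/

set_option autoImplicit false

namespace Pool.Agent.Results.MP_70a088_an.ExponentialFamily

open Pool.Agent.helper98.ILF

/-- For every complex number `c` the map `exp z + c` has no invariant line field on its Julia
set. -/
theorem result : ∀ c : ℂ, ¬ HasInvariantLineField (fun z : ℂ => Complex.exp z + c) :=
  EZ.EFN

end Pool.Agent.Results.MP_70a088_an.ExponentialFamily
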