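import Pool.Agent.helper52.PM.All
import Pool.Agent.helper60.JS.All0

/-!
# Stable polynomials are dense, hyperbolic and have no invariant line fields

`HasInvariantLineField` and the notions it uses are defined in
`Pool/Agent/helper98/ILF/Defs.lean`.
-/

set_option autoImplicit false

namespace Pool.Agent.Results.MP_70a088_an.StablePolynomials

open Pool.Agent.helper98.ILF Filter Topology

/-- The `m`-th iterate of the polynomial `f`. -/
noncomputable def iter (f : Polynomial ℂ) (m : ℕ) : ℂ → ℂ := (fun w : ℂ => f.eval w)^[m]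

/-- `f` has no neutral cycle: no periodic point has a multiplier of modulus one. -/
def NoNeutralCycle (f : Polynomial ℂ) : Prop :=
  ∀ (k : ℕ) (z : ℂ), 0 < k → iter f k z = z → ‖deriv (iter f k) z‖ ≠ 1

/-- `g` has the degree of `f`, and its coefficients are at distance less than `r` from those of
`f`. -/
def Near (f g : Polynomial ℂ) (r : ℝ) : Prop :=
  g.natDegree = f.natDegree ∧ ∀ i, ‖g.coeff i - f.coeff i‖ < r

/-- `f` is stable: no polynomial of the same degree near `f` has a neutral cycle. -/
def Stable (f : Polynomial ℂ) : Prop := ∃ r > (0 : ℝ), ∀ g, Near f g r → NoNeutralCycle g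

/-- The critical values (in the plane) of the polynomial `f`. -/
def criticalValues (f : Polynomial ℂ) : Set ℂ := {v | ∃ y, f.derivative.eval y = 0 ∧ f.eval y = v}

/-- The orbit of `x` tends to infinity. -/
def Escapes (f : Polynomial ℂ) (x : ℂ) : Prop := Tendsto (fun m => ‖iter f m x‖) atTop atTop

/-- The orbit of `x` is attracted by an attracting cycle: it is asymptotic to the orbit of a point
`p` with `f^k (p) = p`, `|(f^k)'(p)| < 1` for some `k ≥ 1`. -/
def Attracted (f : Polynomial ℂ) (x : ℂ) : Prop :=
  ∃ p : ℂ, (∃ k : ℕ, 0 < k ∧ iter f k p = p ∧ ‖deriv (iter f k) p‖ < 1) ∧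
    Tendsto (fun m => iter f m x - iter f m p) atTop (𝓝 0)

/-- `f` is hyperbolic: every critical value escapes or is attracted by an attracting cycle. -/
def Hyperbolic (f : Polynomial ℂ) : Prop := ∀ v ∈ criticalValues f, Escapes f v ∨ Attracted f v

/-- Let `f` be a polynomial of degree `n ≥ 2`. If `f` is stable (no polynomial of degree `n` near
`f` has a neutral cycle) then `f` is hyperbolic and has no invariant line field on its Julia set.
Moreover `f` is a limit of stable polynomials of degree `n`. -/
theorem result (f : Polynomial ℂ) (hf : 2 ≤ f.natDegree) :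
    (Stable f → Hyperbolic f ∧ ¬ HasInvariantLineField (fun z : ℂ => f.eval z)) ∧
      ∀ ε > (0 : ℝ), ∃ g, Near f g ε ∧ Stable g :=
  ⟨fun ⟨r, hr, h⟩ => JS.JFI_j (fun f hf hN μ hμ hind => PM.STM_f f hf.1 hf.2 hN μ hμ hind)
      f hf r hr fun g h1 h2 => h g ⟨h1, h2⟩,
    fun ε hε => JS.DFI_j f hf ε hε⟩

end Pool.Agent.Results.MP_70a088_an.StablePolynomials
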