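import Pool.Agent.helper56.EXQ.All

/-!
# Summable exponential maps: transversality and no invariant line field

`HasInvariantLineField`, `juliaSet` and the notions they use are defined in
`Pool/Agent/helper98/ILF/Defs.lean`. The singular value of `exp z + c` is `c`, and
`deriv (f^[n]) c` is the derivative of the `n`-th iterate at `c`.
-/

set_option autoImplicit false

namespace Pool.Agent.Results.MP_70a088_an.SummableExponential

open Pool.Agent.helper98.ILF

/-- Let `f = exp z + c` and suppose that `∑ 1 / |(f^n)'(c)|` is finite (no condition on the orbit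
of `c`, which may be recurrent or dense). Then `∑ 1 / (f^n)'(c) ≠ 0` (transversality) and `f` has
no invariant line field on its Julia set. -/
theorem result : ∀ c : ℂ,
    Summable (fun n : ℕ => ‖deriv ((fun z : ℂ => Complex.exp z + c)^[n]) c‖⁻¹) →
    ∑' n : ℕ, (deriv ((fun z : ℂ => Complex.exp z + c)^[n]) c)⁻¹ ≠ 0 ∧
    ¬ HasInvariantLineField (fun z : ℂ => Complex.exp z + c) :=
  EXQ.ALL

end Pool.Agent.Results.MP_70a088_an.SummableExponential
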